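import Mathlib
import Pool.Agent.H95.Gilbert.Defs
import Pool.Agent.H95.Gilbert.Exist
import Pool.Agent.H95.Gilbert.CloseG

/-!
# Gilbert's high-low game: `V n - log₂ n` has no limit

`Pool.Agent.H95.Gilbert.IsGilbertValue V` says that `V 0 = 0` and that for every `n ≥ 1` the
number `V n` is the value of the `n × n` matrix game with payoff `A_n(g,h)` to Blue, where Red
chooses `g` and Blue chooses `h`. There is exactly one such sequence `V`, and the sequence
`V n - log₂ n` does not converge to a real number.
-/

namespace Pool.Agent.Results.MP_c4ccc0_co.NoLimit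

open Filter Topology Pool.Agent.H95.Gilbert

theorem result :
    (∃! V : ℕ → ℝ, IsGilbertValue V) ∧
    ∀ V : ℕ → ℝ, IsGilbertValue V →
      ¬ ∃ c : ℝ, Tendsto (fun n : ℕ => V n - Real.logb 2 n) atTop (𝓝 c) :=
  ⟨existsUnique_isGilbertValue, fun _ hV => gilbert_no_limit hV⟩

end Pool.Agent.Results.MP_c4ccc0_co.NoLimit
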